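import Pool.Agent.Q65.LimOrbit

/-!
# MP_efe010_an: non-convergent solutions of a third-order rational recurrence

The statement is false: for `A = 99/100` and `α = 1/2 < α₊(A)` all solutions converge to the
equilibrium.
-/

set_option autoImplicit false

namespace Pool.Agent.Results.MP_efe010_an.Disproof

open Filter Topology Set

/-- `x` is the solution of `x_{n+1} = (α + x_{n-2}) / (A + x_n)` with nonnegative initial values; the
index is shifted by two, so `x 0, x 1, x 2` stand for `x_{-2}, x_{-1}, x_0` -/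
def IsSolution (α A : ℝ) (x : ℕ → ℝ) : Prop :=
  0 ≤ x 0 ∧ 0 ≤ x 1 ∧ 0 ≤ x 2 ∧ ∀ n, x (n + 3) = (α + x n) / (A + x (n + 2))

/-- the equilibrium -/
noncomputable def xbar (α A : ℝ) : ℝ := (1 - A + √((1 - A) ^ 2 + 4 * α)) / 2

/-- the number `α₊(A)` -/
noncomputable def alphaPlus (A : ℝ) : ℝ := (2 - A + √(5 * A ^ 2 - 4 * A ^ 3)) / 2

/-- `x` converges to a periodic solution -/
def ConvergesToPeriodicSolution (α A : ℝ) (x : ℕ → ℝ) : Prop :=
  ∃ p : ℕ → ℝ, IsSolution α A p ∧ (∃ T, 1 ≤ T ∧ ∀ n, p (n + T) = p n) ∧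
    Tendsto (fun n => x n - p n) atTop (𝓝 0)

/-- the statement of Q1 -/
def Q1 : Prop :=
  ∀ A α : ℝ, 0 < A → A < 1 → 0 < α → α < alphaPlus A →
    ∃ x, IsSolution α A x ∧ ¬ Tendsto x atTop (𝓝 (xbar α A)) ∧ ¬ ConvergesToPeriodicSolution α A x

lemma nonneg {x : ℕ → ℝ} (h : IsSolution (1 / 2) (99 / 100) x) (n : ℕ) : 0 ≤ x n := by
  induction n using Nat.strong_induction_on with
  | _ n ih =>
    match n with
    | 0 => exact h.1
    | 1 => exact h.2.1
    | 2 => exact h.2.2.1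
    | n + 3 =>
      rw [h.2.2.2 n]
      have h1 := ih n (by omega)
      have h2 := ih (n + 2) (by omega)
      positivity

lemma eqn {x : ℕ → ℝ} (h : IsSolution (1 / 2) (99 / 100) x) (n : ℕ) :
    x (n + 3) * (99 / 100 + x (n + 2)) = 1 / 2 + x n := by
  rw [h.2.2.2 n, div_mul_cancel₀]
  have := nonneg h (n + 2)
  positivity

/-- there is no large record value -/
lemma bdd {x : ℕ → ℝ} (h : IsSolution (1 / 2) (99 / 100) x) : ∃ M, ∀ n, x n ≤ M := by
  set M := 50 + x 0 + x 1 + x 2 + x 3 + x 4 + x 5 with hM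
  have p := nonneg h
  refine ⟨M, fun n => ?_⟩
  induction n using Nat.strong_induction_on with
  | _ n ih =>
    match n with
    | 0 => linarith [p 0, p 1, p 2, p 3, p 4, p 5]
    | 1 => linarith [p 0, p 1, p 2, p 3, p 4, p 5]
    | 2 => linarith [p 0, p 1, p 2, p 3, p 4, p 5]
    | 3 => linarith [p 0, p 1, p 2, p 3, p 4, p 5]
    | 4 => linarith [p 0, p 1, p 2, p 3, p 4, p 5]
    | 5 => linarith [p 0, p 1, p 2, p 3, p 4, p 5]
    | n + 6 =>
      by_contra hcon
      push Not at hcon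
      have hM50 : 50 ≤ M := by linarith [p 0, p 1, p 2, p 3, p 4, p 5]
      have e1 : x (n + 6) * (99 / 100 + x (n + 5)) = 1 / 2 + x (n + 3) := eqn h (n + 3)
      have e2 : x (n + 5) * (99 / 100 + x (n + 4)) = 1 / 2 + x (n + 2) := eqn h (n + 2)
      have e3 : x (n + 4) * (99 / 100 + x (n + 3)) = 1 / 2 + x (n + 1) := eqn h (n + 1)
      have b1 := ih (n + 3) (by omega)
      have b2 := ih (n + 1) (by omega)
      have p2 := p (n + 2)
      have p3 := p (n + 3)
      have p4 := p (n + 4)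
      have p5 := p (n + 5)
      -- `x (n+5)` is small
      have c1 : x (n + 5) ≤ 1 / 50 := by nlinarith
      have c2 : 24 ≤ x (n + 4) := by nlinarith
      have c3 : 99 / 100 * x (n + 6) - 1 / 2 ≤ x (n + 3) := by nlinarith
      nlinarith

/-- the estimates along limiting orbits -/
lemma key {I S L1 L2 L3 L4 L5 M1 M3 : ℝ} (hI0 : 0 ≤ I)
    (h1 : I ≤ L1) (h2 : I ≤ L2) (h2' : L2 ≤ S) (h3' : L3 ≤ S) (h4 : I ≤ L4)
    (h5 : L5 ≤ S) (g1 : M1 ≤ S) (g3 : I ≤ M3)
    (e0 : S * (99 / 100 + L1) = 1 / 2 + L3) (e1 : L1 * (99 / 100 + L2) = 1 / 2 + L4)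
    (e2 : L2 * (99 / 100 + L3) = 1 / 2 + L5) (f0 : I * (99 / 100 + M1) = 1 / 2 + M3) :
    S ≤ I := by
  by_contra hcon
  push Not at hcon
  have hI : 0 < I := by
    rcases hI0.eq_or_lt with h | h
    · rw [← h] at f0 g3
      linarith
    · exact h
  have hS : 0 < S := by linarith
  -- (1)
  have a1 : 1 / 2 + I / 100 ≤ I * S := by nlinarith
  -- (3)
  have a3 : S - (S - I) / 100 ≤ L3 := by nlinarith
  -- (4)
  have a4 : S * L1 ≤ S * I + (S - I) / 100 := by nlinarith
  -- (5)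
  have a5 : S * I * (S - L2) ≤ (S - I) / 100 * (1 + 2 * S) := by
    have b1 : S * (I * S - S / 100 + I) ≤ S * L1 * (99 / 100 + L2) := by
      have : I * S - S / 100 + I ≤ L1 * (99 / 100 + L2) := by nlinarith
      nlinarith
    have b2 : S * L1 * (99 / 100 + L2) ≤ (S * I + (S - I) / 100) * (99 / 100 + L2) :=
      mul_le_mul_of_nonneg_right a4 (by linarith)
    nlinarith
  -- (6)
  have a6 : (S - I) * (S - 1 / 100 - S / 100) ≤ (S - L2) * (1 + S) := by
    have b1 : L2 * (99 / 100 + S - (S - I) / 100) ≤ 1 / 2 + S := by nlinarith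
    nlinarith
  -- bound for `S`
  have hS20 : S ≤ 20 := by
    by_contra hc
    push Not at hc
    have c1 : L1 ≤ 7 / 200 := by nlinarith
    have c2 : 13 ≤ L2 := by nlinarith
    have c3 : 99 / 100 * S - 1 / 2 ≤ L3 := by nlinarith
    nlinarith
  have hS1 : 7 / 10 ≤ S := by nlinarith
  have a7 : S - L2 ≤ 2 * ((S - I) / 100 * (1 + 2 * S)) := by nlinarith
  have a8 : (S - I) * (S - 1 / 100 - S / 100) ≤ (S - I) * ((1 + 2 * S) * (1 + S) / 50) := by
    nlinarith
  have a9 := le_of_mul_le_mul_left a8 (by linarith)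
  nlinarith

lemma converges {x : ℕ → ℝ} (h : IsSolution (1 / 2) (99 / 100) x) :
    Tendsto x atTop (𝓝 (xbar (1 / 2) (99 / 100))) := by
  obtain ⟨M, hM⟩ := bdd h
  have hx : ∀ n, x n ∈ Icc 0 M := fun n => ⟨nonneg h n, hM n⟩
  -- the recursion along limiting orbits
  have hrec : ∀ {φ : ℕ → ℕ} {L : ℕ → ℝ}, Tendsto φ atTop atTop →
      (∀ j, Tendsto (fun k => x (φ k - j)) atTop (𝓝 (L j))) →
      ∀ j, L j * (99 / 100 + L (j + 1)) = 1 / 2 + L (j + 3) := by
    intro φ L hφ hL j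
    have t1 : Tendsto (fun k => x (φ k - j) * (99 / 100 + x (φ k - (j + 1)))) atTop
        (𝓝 (L j * (99 / 100 + L (j + 1)))) := (hL j).mul ((hL (j + 1)).const_add _)
    have t2 : Tendsto (fun k => 1 / 2 + x (φ k - (j + 3))) atTop (𝓝 (1 / 2 + L (j + 3))) :=
      (hL (j + 3)).const_add _
    refine tendsto_nhds_unique (t1.congr' ?_) t2
    filter_upwards [hφ.eventually_ge_atTop (j + 3)] with k hk
    have e := eqn h (φ k - (j + 3))
    rw [show φ k - (j + 3) + 3 = φ k - j by omega,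
      show φ k - (j + 3) + 2 = φ k - (j + 1) by omega] at e
    exact e
  obtain ⟨φ, L, hφ, hL, hL0, hLb⟩ := Q65.LimOrbit.limsup_orbit hx
  obtain ⟨ψ, N, hψ, hN, hN0, hNb⟩ := Q65.LimOrbit.liminf_orbit hx
  have hLr := hrec hφ hL
  have hNr := hrec hψ hN
  set S := limsup x atTop with hS
  set I := liminf x atTop with hI
  have hN1 : ∀ j, 0 ≤ N j := fun j => ge_of_tendsto' (hN j) fun k => nonneg h _
  have hI0 : 0 ≤ I := by
    rw [← hN0]
    exact hN1 0
  have hSI : S ≤ I := by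
    have e0 := hLr 0
    have e1 := hLr 1
    have e2 := hLr 2
    have f0 := hNr 0
    rw [hL0] at e0
    rw [hN0] at f0
    exact key hI0 (hLb 1).1 (hLb 2).1 (hLb 2).2 (hLb 3).2 (hLb 4).1 (hLb 5).2 (hNb 1).2 (hNb 3).1
      e0 e1 e2 f0
  have hlim := Q65.LimOrbit.tendsto_of_eq hx hSI
  have hlimeq : S = xbar (1 / 2) (99 / 100) := by
    have e : S * (99 / 100 + S) = 1 / 2 + S := by
      have t1 : Tendsto (fun n => x (n + 3) * (99 / 100 + x (n + 2))) atTop
          (𝓝 (S * (99 / 100 + S))) :=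
        (hlim.comp (tendsto_add_atTop_nat 3)).mul
          ((hlim.comp (tendsto_add_atTop_nat 2)).const_add _)
      exact tendsto_nhds_unique (t1.congr fun n => eqn h n) (hlim.const_add _)
    have hS0 : 0 ≤ S := hI0.trans ((hLb 1).1.trans (hLb 1).2)
    unfold xbar
    have h1 : (2 * S - 1 / 100) ^ 2 = (1 - 99 / 100) ^ 2 + 4 * (1 / 2) := by nlinarith
    have h2 : 0 ≤ 2 * S - 1 / 100 := by nlinarith
    rw [← h1, Real.sqrt_sq h2]
    ring
  rw [← hlimeq]
  exact hlim

/-- **The statement of Q1 is false**: for `A = 99/100` and `α = 1/2` we have `0 < α < α₊(A)` and all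
solutions with nonnegative initial values converge to the equilibrium. -/
theorem result : ¬ Q1 ∧ (1 / 2 : ℝ) < alphaPlus (99 / 100) ∧
    ∀ x, IsSolution (1 / 2) (99 / 100) x → Tendsto x atTop (𝓝 (xbar (1 / 2) (99 / 100))) := by
  have hα : (1 / 2 : ℝ) < alphaPlus (99 / 100) := by
    unfold alphaPlus
    have := Real.sqrt_nonneg (5 * (99 / 100 : ℝ) ^ 2 - 4 * (99 / 100) ^ 3)
    linarith
  refine ⟨fun hQ => ?_, hα, fun x hx => converges hx⟩
  obtain ⟨x, hx, h1, -⟩ := hQ (99 / 100) (1 / 2) (by norm_num) (by norm_num) (by norm_num) hα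
  exact h1 (converges hx)

end Pool.Agent.Results.MP_efe010_an.Disproof
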